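import Mathlib

/-!
# The degree of a matrix over `F_p` with an element of order `ℓ ^ (m + 1)`
-/

set_option autoImplicit false

namespace Pool.Agent.U120.GapA

open Polynomial

variable {p : ℕ} [hp : Fact p.Prime]

/-- A matrix over `F_p` whose `ℓ ^ (m + 1)`-th power is trivial, but not its `ℓ ^ m`-th power, has at
least `ord` rows, `ord` the order of `p` modulo `ℓ ^ (m + 1)`. -/
theorem matrix_le {ℓ : ℕ} (hℓ : ℓ.Prime) (hne : ℓ ≠ p) (m d : ℕ)
    (A : Matrix (Fin d) (Fin d) (ZMod p)) (h1 : A ^ ℓ ^ (m + 1) = 1) (h2 : A ^ ℓ ^ m ≠ 1) :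
    orderOf (p : ZMod (ℓ ^ (m + 1))) ≤ d := by
  classical
  have : Fact ℓ.Prime := ⟨hℓ⟩
  have hcop : p.Coprime (ℓ ^ (m + 1)) :=
    Nat.Coprime.pow_right _ ((Nat.coprime_primes hp.out hℓ).2 (Ne.symm hne))
  have hprod : (cyclotomic (ℓ ^ (m + 1)) (ZMod p)) * (X ^ ℓ ^ m - 1 : (ZMod p)[X]) =
      X ^ ℓ ^ (m + 1) - 1 := by
    have h3 := cyclotomic_prime_pow_mul_X_pow_sub_one (ZMod p) ℓ m
    exact h3
  have hd1 : minpoly (ZMod p) A ∣ X ^ ℓ ^ (m + 1) - 1 := by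
    apply minpoly.dvd
    rw [map_sub, map_pow, aeval_X, h1, map_one, sub_self]
  have hd2 : ¬ minpoly (ZMod p) A ∣ X ^ ℓ ^ m - 1 := by
    intro h
    have h3 := (minpoly.dvd_iff).1 h
    rw [map_sub, map_pow, aeval_X, map_one] at h3
    exact h2 (sub_eq_zero.1 h3)
  have hnc : ¬ IsCoprime (minpoly (ZMod p) A) (cyclotomic (ℓ ^ (m + 1)) (ZMod p)) := by
    intro h
    rw [← hprod] at hd1
    exact hd2 (h.dvd_of_dvd_mul_left hd1)
  have hc0 : cyclotomic (ℓ ^ (m + 1)) (ZMod p) ≠ 0 := cyclotomic_ne_zero _ _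
  obtain ⟨q, hq1, hq2, hq3⟩ : ∃ q : (ZMod p)[X], Irreducible q ∧ q ∣ minpoly (ZMod p) A ∧
      q ∣ cyclotomic (ℓ ^ (m + 1)) (ZMod p) := by
    have hg : ¬ IsUnit (EuclideanDomain.gcd (minpoly (ZMod p) A)
        (cyclotomic (ℓ ^ (m + 1)) (ZMod p))) := by
      intro h
      exact hnc (EuclideanDomain.gcd_isUnit_iff.1 h)
    have hg0 : EuclideanDomain.gcd (minpoly (ZMod p) A)
        (cyclotomic (ℓ ^ (m + 1)) (ZMod p)) ≠ 0 := by
      intro h
      exact hc0 (EuclideanDomain.gcd_eq_zero_iff.1 h).2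
    obtain ⟨q, hq, hqd⟩ := WfDvdMonoid.exists_irreducible_factor hg hg0
    exact ⟨q, hq, hqd.trans (EuclideanDomain.gcd_dvd_left _ _),
      hqd.trans (EuclideanDomain.gcd_dvd_right _ _)⟩
  have hdeg := natDegree_of_dvd_cyclotomic_of_irreducible (K := ZMod p) (p := p) (f := 1)
    (by rw [ZMod.card, pow_one]) hcop hq3 hq1
  have hdeg2 : q.natDegree = orderOf (p : ZMod (ℓ ^ (m + 1))) := by
    rw [hdeg, ← orderOf_units]
    congr 1
    rw [ZMod.coe_unitOfCoprime, pow_one]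
  have hle : q.natDegree ≤ d := by
    have h3 : q ∣ A.charpoly := hq2.trans (Matrix.minpoly_dvd_charpoly A)
    have h4 := natDegree_le_of_dvd h3 (Matrix.charpoly_monic A).ne_zero
    rwa [Matrix.charpoly_natDegree_eq_dim, Fintype.card_fin] at h4
  rw [← hdeg2]
  exact hle

/-- The same for an element of `ℓ`-power order. -/
theorem gl_le {ℓ : ℕ} (hℓ : ℓ.Prime) (hne : ℓ ≠ p) (m d : ℕ) (g : GL (Fin d) (ZMod p))
    (j : ℕ) (h1 : g ^ ℓ ^ j = 1) (h2 : g ^ ℓ ^ m ≠ 1) :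
    orderOf (p : ZMod (ℓ ^ (m + 1))) ≤ d := by
  obtain ⟨i, hi, ho⟩ := (Nat.dvd_prime_pow hℓ).1 (orderOf_dvd_of_pow_eq_one h1)
  have him : m + 1 ≤ i := by
    by_contra h
    apply h2
    rw [← orderOf_dvd_iff_pow_eq_one, ho]
    exact pow_dvd_pow ℓ (by omega)
  set h : GL (Fin d) (ZMod p) := g ^ ℓ ^ (i - (m + 1)) with hh
  have e1 : h ^ ℓ ^ (m + 1) = 1 := by
    rw [hh, ← pow_mul, ← pow_add, Nat.sub_add_cancel him, ← ho, pow_orderOf_eq_one]
  have e2 : h ^ ℓ ^ m ≠ 1 := by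
    intro h3
    rw [hh, ← pow_mul, ← pow_add] at h3
    have h4 := orderOf_dvd_of_pow_eq_one h3
    rw [ho] at h4
    have h5 := (Nat.pow_dvd_pow_iff_le_right hℓ.one_lt).1 h4
    omega
  refine matrix_le hℓ hne m d (h : Matrix (Fin d) (Fin d) (ZMod p)) ?_ ?_
  · rw [← Units.val_pow_eq_pow_val, e1, Units.val_one]
  · rw [← Units.val_pow_eq_pow_val]
    intro h3
    exact e2 (Units.ext h3)

end Pool.Agent.U120.GapA
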