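import Pool.Agent.U10.Mu.Stm
import Pool.Agent.U120.GapA

/-!
# The jump of the ranks for a representation over `F_p[[T]]`
-/

set_option autoImplicit false
set_option linter.unusedSectionVars false

namespace Pool.Agent.U120.GapB

open Module Pool.Agent.U10.Mu

section quot

variable {R G S : Type} [CommRing R] [IsDomain R] [Group G] [AddCommGroup S] [Module R S]
  [IsTorsionFree R S] (ρ : G →* Module.End R S) (H : Subgroup G) [hH : H.Normal]

theorem fx_stable (g : G) : Fx ρ H ≤ (Fx ρ H).comap (ρ g) := by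
  intro x hx h hh
  change ρ h (ρ g x) = ρ g x
  have h2 : ρ (g⁻¹ * h * g) x = x := hx _ (by simpa using hH.conj_mem h hh g⁻¹)
  conv_rhs => rw [← h2]
  change (ρ h * ρ g) x = (ρ g * ρ (g⁻¹ * h * g)) x
  rw [← map_mul, ← map_mul]
  congr 2
  group

/-- The action on the quotient by the elements fixed by a normal subgroup. -/
def rq : G →* Module.End R (S ⧸ Fx ρ H) where
  toFun g := (Fx ρ H).mapQ (Fx ρ H) (ρ g) (fx_stable ρ H g)
  map_one' := by
    ext x
    change Submodule.Quotient.mk (ρ 1 x) = Submodule.Quotient.mk x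
    rw [map_one]
    rfl
  map_mul' g h := by
    ext x
    change Submodule.Quotient.mk (ρ (g * h) x) = Submodule.Quotient.mk (ρ g (ρ h x))
    rw [map_mul]
    rfl

theorem rq_mk (g : G) (x : S) :
    rq ρ H g (Submodule.Quotient.mk x) = Submodule.Quotient.mk (ρ g x) := rfl

theorem tf : IsTorsionFree R (S ⧸ Fx ρ H) := by
  refine IsTorsionFree.of_smul_eq_zero ?_
  intro r m h
  obtain ⟨x, rfl⟩ := Submodule.Quotient.mk_surjective _ m
  by_contra hc
  rw [not_or] at hc
  obtain ⟨hr, hx⟩ := hc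
  apply hx
  rw [← Submodule.Quotient.mk_smul, Submodule.Quotient.mk_eq_zero] at h
  rw [Submodule.Quotient.mk_eq_zero]
  intro g hg
  have h1 := h g hg
  rw [map_smul] at h1
  exact smul_right_injective S hr h1

/-- If `H` acts trivially on the quotient then it acts trivially. -/
theorem trivial_of_quot (n : ℕ) (hn : (n : R) ≠ 0) (h : ∀ g ∈ H, ρ g ^ n = 1)
    (ht : ∀ g ∈ H, rq ρ H g = 1) : Fx ρ H = ⊤ := by
  rw [eq_top_iff]
  intro x _ g hg
  have h1 : ρ g x - x ∈ Fx ρ H := by
    rw [← Submodule.Quotient.mk_eq_zero, Submodule.Quotient.mk_sub, ← rq_mk, ht g hg]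
    exact sub_self _
  set y := ρ g x - x with hy
  have h2 : ρ g y = y := h1 g hg
  have h3 : ρ g x = x + y := by rw [hy]; abel
  have h4 : ∀ j : ℕ, (ρ g ^ j) x = x + (j : R) • y := by
    intro j
    induction j with
    | zero => simp
    | succ j ih =>
      rw [pow_succ']
      change ρ g ((ρ g ^ j) x) = _
      rw [ih, map_add, map_smul, h2, h3, Nat.cast_succ, add_smul, one_smul]
      abel
  have h5 := h4 n
  rw [h g hg] at h5
  have h6 : (n : R) • y = 0 := by
    have h7 : x = x + (n : R) • y := h5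
    exact (left_eq_add.1 h7)
  have h7 : y = 0 := (smul_eq_zero.1 h6).resolve_left hn
  rw [h3, h7, add_zero]

end quot

variable {p : ℕ} [hp : Fact p.Prime]

/-- **The jump.** -/
theorem jump (hC : S_C) (G S : Type) [Group G] [AddCommGroup S]
    [Module (PowerSeries (ZMod p)) S] [IsTorsionFree (PowerSeries (ZMod p)) S]
    (ρ : G →* Module.End (PowerSeries (ZMod p)) S) (N H : Subgroup G) [N.Normal] [H.Normal]
    (hNi : N.index ≠ 0) (hNp : ¬ p ∣ N.index) (hN : ∀ g ∈ N, ρ g = 1)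
    {ℓ : ℕ} (hℓ : ℓ.Prime) (hne : ℓ ≠ p) (m : ℕ)
    (hH : ∀ N' : Subgroup G, N'.Normal → N ≤ N' →
      (∀ σ : G, (∃ j : ℕ, σ ^ ℓ ^ j ∈ N) → σ ^ ℓ ^ m ∈ N') → H ≤ N') :
    Module.rank (PowerSeries (ZMod p)) (Fx ρ H) = Module.rank (PowerSeries (ZMod p)) S ∨
    Module.rank (PowerSeries (ZMod p)) (Fx ρ H) + (orderOf (p : ZMod (ℓ ^ (m + 1))) : ℕ) ≤
      Module.rank (PowerSeries (ZMod p)) S := by
  by_cases hfin : Module.rank (PowerSeries (ZMod p)) S < Cardinal.aleph0
  swap
  · right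
    have h1 := Submodule.rank_le (Fx ρ H)
    exact (add_le_add_left h1 _).trans
      (Cardinal.add_eq_left (not_lt.1 hfin)
        ((Cardinal.natCast_lt_aleph0).le.trans (not_lt.1 hfin))).le
  have := tf ρ H
  have hq : Module.rank (PowerSeries (ZMod p)) (S ⧸ Fx ρ H) +
      Module.rank (PowerSeries (ZMod p)) (Fx ρ H) = Module.rank (PowerSeries (ZMod p)) S :=
    rank_quotient_add_rank_of_isDomain _
  have hqf : Module.rank (PowerSeries (ZMod p)) (S ⧸ Fx ρ H) < Cardinal.aleph0 :=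
    (self_le_add_right _ _).trans_lt (hq.le.trans_lt hfin)
  obtain ⟨d, hd⟩ := Cardinal.lt_aleph0.1 hqf
  set N' : Subgroup G := (rq ρ H).ker with hN'
  have hmem : ∀ g, rq ρ H g = 1 ↔ g ∈ N' := fun g => Iff.rfl
  have hNN' : N ≤ N' := by
    intro g hg
    rw [← hmem]
    ext x
    change Submodule.Quotient.mk (ρ g x) = Submodule.Quotient.mk x
    rw [hN g hg]
    rfl
  have hdvd : N'.index ∣ N.index := Subgroup.index_dvd_of_le hNN'
  obtain ⟨φ, hφ⟩ := hC p G (S ⧸ Fx ρ H) (rq ρ H) N' inferInstance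
    (fun h => hNi (by rw [h, zero_dvd_iff] at hdvd; exact hdvd))
    (fun h => hNp (h.trans hdvd)) hmem d hd
  by_cases hcase : H ≤ N'
  · left
    have hn : (N.index : PowerSeries (ZMod p)) ≠ 0 := by
      intro h
      apply hNp
      rw [← CharP.cast_eq_zero_iff (ZMod p) p]
      have h1 := congrArg (PowerSeries.constantCoeff (R := ZMod p)) h
      rwa [map_natCast, map_zero] at h1
    have htop := trivial_of_quot ρ H N.index hn (by
      intro g _
      rw [← map_pow]
      exact hN _ (Subgroup.pow_index_mem N g)) (fun g hg => (hmem g).2 (hcase hg))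
    rw [htop, rank_top]
  · right
    have hex : ∃ σ : G, (∃ j : ℕ, σ ^ ℓ ^ j ∈ N) ∧ σ ^ ℓ ^ m ∉ N' := by
      by_contra hno
      push Not at hno
      exact hcase (hH N' inferInstance hNN' hno)
    obtain ⟨σ, ⟨j, hj⟩, hσ⟩ := hex
    have e1 : (φ σ) ^ ℓ ^ j = 1 := by
      rw [← map_pow, ← MonoidHom.mem_ker, hφ]
      exact hNN' hj
    have e2 : (φ σ) ^ ℓ ^ m ≠ 1 := by
      rw [← map_pow, Ne, ← MonoidHom.mem_ker, hφ]
      exact hσ
    have h4 := Pool.Agent.U120.GapA.gl_le hℓ hne m d (φ σ) j e1 e2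
    rw [← hq, add_comm, hd]
    gcongr

end Pool.Agent.U120.GapB
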