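import Pool.Agent.U10.Mu.Fin
import Pool.Agent.U120.GapB

/-!
# The jumps of the ranks in extensions and towers
-/

set_option autoImplicit false
set_option linter.unusedSectionVars false
set_option linter.style.haveILetI false

namespace Pool.Agent.U120.GapC

open Module IntermediateField Pool.Agent.U10.Mu
open Pool.Agent.U10.Shr (fd_of_le)

section

variable {k A : Type} [Field k] [Field A] [Algebra k A] [IsGalois k A]

/-- `K'` contains the elements of `K` which are fixed by the `ℓ ^ m`-th powers of the elements of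
`ℓ`-power order of the Galois group of `K`. -/
def PowF (ℓ m : ℕ) (K' K : IntermediateField k A) : Prop :=
  ∀ x : K, (∀ σ : K ≃ₐ[k] K, (∃ j : ℕ, σ ^ ℓ ^ j = 1) → (σ ^ ℓ ^ m) x = x) → (x : A) ∈ K'

theorem res_apply (K : IntermediateField k A) [Normal k K] (τ : A ≃ₐ[k] A) (x : K) :
    ((AlgEquiv.restrictNormalHom K τ x : K) : A) = τ x :=
  AlgEquiv.restrictNormal_commutes τ K x

theorem le_of_iSup {κ : ℕ → IntermediateField k A} (hm : Monotone κ) (K : IntermediateField k A)
    (hK : K ≤ ⨆ i, κ i) (hf : FiniteDimensional k K) (M : ℕ) : ∃ m ≥ M, K ≤ κ m := by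
  classical
  have h1 : ∀ x : A, x ∈ K → ∃ i, x ∈ κ i := by
    intro x hx
    have h2 : x ∈ ((⨆ i, κ i : IntermediateField k A) : Set A) := hK hx
    rw [IntermediateField.coe_iSup_of_directed (directed_of_isDirected_le hm)] at h2
    simpa using h2
  let b := Module.finBasis k K
  choose n hn using fun i => h1 (b i : A) (b i).2
  refine ⟨M + ∑ i, n i, by omega, fun x hx => ?_⟩
  have h3 := b.sum_repr ⟨x, hx⟩
  have h4 : x = ∑ i, b.repr ⟨x, hx⟩ i • (b i : A) := by
    have h5 : ((∑ i, b.repr ⟨x, hx⟩ i • b i : K) : A) = x := congrArg Subtype.val h3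
    exact h5.symm.trans ((map_sum K.val _ _).trans
      (Finset.sum_congr rfl fun i _ => map_smul K.val _ _))
  rw [h4]
  refine sum_mem fun i _ => ?_
  refine (κ (M + ∑ i, n i)).smul_mem ?_
  refine hm ?_ (hn i)
  have h6 : n i ≤ ∑ i, n i := Finset.single_le_sum (fun _ _ => Nat.zero_le _) (Finset.mem_univ i)
  omega

theorem cyc {ℓ : ℕ} (hℓ : ℓ.Prime) (m : ℕ) (K' K : IntermediateField k A) (hle : K' ≤ K)
    (hf : FiniteDimensional k K) (hg : IsGalois k K) (hg' : IsGalois k K')
    (h1 : finrank k K' = ℓ ^ m) (h2 : finrank k K = ℓ ^ (m + 1)) (hc : IsCyclic (K ≃ₐ[k] K)) :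
    PowF ℓ m K' K := by
  intro x hx
  obtain ⟨σ, hσ⟩ := hc.exists_generator
  have hcard : Nat.card (K ≃ₐ[k] K) = ℓ ^ (m + 1) := by
    rw [IsGalois.card_aut_eq_finrank, h2]
  have hord : orderOf σ = ℓ ^ (m + 1) := by
    rw [← hcard]
    exact orderOf_eq_card_of_forall_mem_zpowers hσ
  set τ := σ ^ ℓ ^ m with hτ
  have hordτ : orderOf τ = ℓ := by
    rw [hτ, orderOf_pow_of_dvd (pow_ne_zero _ hℓ.ne_zero) (by rw [hord]; exact pow_dvd_pow ℓ (by omega)),
      hord, pow_succ, Nat.mul_div_cancel_left _ (pow_pos hℓ.pos m)]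
  have hτx : τ x = x := by
    refine hx σ ⟨m + 1, ?_⟩
    rw [← hord, pow_orderOf_eq_one]
  set E : IntermediateField k K := fixedField (Subgroup.zpowers τ) with hE
  have hEK : finrank E K = ℓ := by
    rw [hE, IntermediateField.finrank_fixedField_eq_card, Nat.card_zpowers, hordτ]
  have hkE : finrank k E = ℓ ^ m := by
    have h3 := Module.finrank_mul_finrank k E K
    rw [hEK, h2, pow_succ] at h3
    exact Nat.eq_of_mul_eq_mul_right hℓ.pos h3
  set L : IntermediateField k K := IntermediateField.restrict hle with hL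
  have hLe : finrank k L = ℓ ^ m := by
    rw [← h1]
    exact (IntermediateField.restrictAlgEquiv hle).toLinearEquiv.finrank_eq.symm
  haveI : IsGalois k L := IsGalois.of_algEquiv (IntermediateField.restrictAlgEquiv hle)
  haveI : Normal k L := IsGalois.to_normal
  have hLE : L ≤ E := by
    intro y hy
    have h4 : (AlgEquiv.restrictNormalHom L τ : L ≃ₐ[k] L) = 1 := by
      rw [hτ, map_pow, ← hLe, ← IsGalois.card_aut_eq_finrank]
      exact pow_card_eq_one'
    have h5 : τ y = y := by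
      have h6 := AlgEquiv.restrictNormal_commutes τ L ⟨y, hy⟩
      have h7 : AlgEquiv.restrictNormal τ L ⟨y, hy⟩ = ⟨y, hy⟩ := by
        change (AlgEquiv.restrictNormalHom L τ : L ≃ₐ[k] L) ⟨y, hy⟩ = _
        rw [h4]
        rfl
      rw [h7] at h6
      exact h6.symm
    have h8 : ∀ g ∈ Subgroup.zpowers τ, g y = y := by
      have h9 : Subgroup.zpowers τ ≤ MulAction.stabilizer (K ≃ₐ[k] K) y := by
        rw [Subgroup.zpowers_le]
        exact h5
      exact fun g hg => h9 hg
    rw [hE, IntermediateField.mem_fixedField_iff]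
    exact h8
  have hEL : L = E := IntermediateField.eq_of_le_of_finrank_eq hLE (by rw [hLe, hkE])
  have hxE : x ∈ E := by
    rw [hE, IntermediateField.mem_fixedField_iff]
    have h9 : Subgroup.zpowers τ ≤ MulAction.stabilizer (K ≃ₐ[k] K) x := by
      rw [Subgroup.zpowers_le]
      exact hτx
    exact fun g hg => h9 hg
  rw [← hEL] at hxE
  exact (IntermediateField.mem_restrict hle x).1 hxE

end

section ps

variable {k A : Type} [Field k] [Field A] [Algebra k A] [IsGalois k A]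
variable {p : ℕ} [hp : Fact p.Prime] [TopologicalSpace (PowerSeries (ZMod p))]
  [IsTopologicalRing (PowerSeries (ZMod p))]

theorem deg_of (K : IntermediateField k A) (hd : ¬ p ∣ finrank k K) :
    Deg (PowerSeries (ZMod p)) K := by
  intro K₁ hK₁ hf₁ h
  apply hd
  have h1 : finrank k K₁ ∣ finrank k K := IntermediateField.finrank_dvd_of_le_right hK₁
  refine dvd_trans ?_ h1
  rw [← CharP.cast_eq_zero_iff (ZMod p) p]
  have h2 := congrArg (PowerSeries.constantCoeff (R := ZMod p)) h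
  rwa [map_natCast, map_zero] at h2

theorem gap (hA : S_A) (hC : S_C) {κ : (A ≃ₐ[k] A) →* PowerSeries (ZMod p)}
    {F : Set (Subgroup (A ≃ₐ[k] A))} (hF : Stab F) {ℓ : ℕ} (hℓ : ℓ.Prime) (hne : ℓ ≠ p) (m : ℕ)
    (K' K : IntermediateField k A) (hle : K' ≤ K) (hf : FiniteDimensional k K)
    (hg : IsGalois k K) (hg' : IsGalois k K') (hd : ¬ p ∣ finrank k K) (hP : PowF ℓ m K' K) :
    rkF κ F K = rkF κ F K' ∨
      rkF κ F K' + (orderOf (p : ZMod (ℓ ^ (m + 1))) : ℕ) ≤ rkF κ F K := by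
  have hd' : Deg (PowerSeries (ZMod p)) K := deg_of K hd
  haveI : FiniteDimensional k K' := fd_of_le hle
  obtain ⟨S, _, _, _, ρ, h5, h6⟩ := exists_rep hA (κ := κ) hF hd' K le_rfl hf inferInstance
  haveI hN : K.fixingSubgroup.Normal := (InfiniteGalois.normal_iff_isGalois _).2 inferInstance
  haveI hH : K'.fixingSubgroup.Normal := (InfiniteGalois.normal_iff_isGalois _).2 inferInstance
  have hi : K.fixingSubgroup.index = finrank k K := by
    rw [finrank_eq_fixingSubgroup_index]
  have hle' : K.fixingSubgroup ≤ K'.fixingSubgroup := IntermediateField.fixingSubgroup_antitone hle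
  have htop : Fx ρ K.fixingSubgroup = ⊤ := by
    rw [eq_top_iff]
    intro x _ h hh
    rw [h5 h hh]
    rfl
  have e1 : rkF κ F K = Module.rank (PowerSeries (ZMod p)) S := by
    unfold rkF
    rw [h6 _ le_rfl, htop, rank_top]
  have e2 : rkF κ F K' = Module.rank (PowerSeries (ZMod p)) (Fx ρ K'.fixingSubgroup) := by
    unfold rkF
    rw [h6 _ hle']
  rw [e1, e2]
  refine (Pool.Agent.U120.GapB.jump hC _ S ρ K.fixingSubgroup K'.fixingSubgroup
    (by rw [hi]; exact finrank_pos.ne') (by rw [hi]; exact hd) h5 hℓ hne m ?_).imp Eq.symm id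
  intro N' hN' hKN' hσ
  have hopN : IsOpen (N' : Set (A ≃ₐ[k] A)) :=
    Subgroup.isOpen_mono hKN' (IntermediateField.fixingSubgroup_isOpen K)
  have h2 : (fixedField N').fixingSubgroup = N' :=
    InfiniteGalois.fixingSubgroup_fixedField (k := k) (K := A)
      ⟨N', Subgroup.isClosed_of_isOpen _ hopN⟩
  have h3 : fixedField N' ≤ K' := by
    intro x hx
    have hxK : x ∈ K := by
      rw [← InfiniteGalois.fixedField_fixingSubgroup K]
      exact IntermediateField.fixedField_antitone hKN' hx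
    refine hP ⟨x, hxK⟩ ?_
    rintro σ ⟨j, hj⟩
    obtain ⟨τ, rfl⟩ := AlgEquiv.restrictNormalHom_surjective (F := k) (K₁ := K) A σ
    have hτ : τ ^ ℓ ^ j ∈ K.fixingSubgroup := by
      rw [← IntermediateField.restrictNormalHom_ker K, MonoidHom.mem_ker, map_pow]
      exact hj
    have h4 : τ ^ ℓ ^ m ∈ N' := hσ τ ⟨j, hτ⟩
    rw [← map_pow]
    apply Subtype.ext
    rw [res_apply]
    exact (IntermediateField.mem_fixedField_iff _ _).1 hx _ h4
  rw [← h2]
  exact IntermediateField.fixingSubgroup_antitone h3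

theorem tower (hA : S_A) (hC : S_C) {κ : (A ≃ₐ[k] A) →* PowerSeries (ZMod p)}
    {F : Set (Subgroup (A ≃ₐ[k] A))} (hF : Stab F) {ℓ : ℕ} (hℓ : ℓ.Prime) (hne : ℓ ≠ p)
    (L : ℕ → IntermediateField k A) (hmono : Monotone L)
    (h : ∀ m, FiniteDimensional k (L m) ∧ IsGalois k (L m) ∧ ¬ p ∣ finrank k (L m) ∧
      PowF ℓ m (L m) (L (m + 1))) :
    (∃ m₀, rkF κ F (L m₀) < Cardinal.aleph0 ∧ ∀ K ≤ ⨆ m, L m, FiniteDimensional k K →
      rkF κ F K = rkF κ F (K ⊓ L m₀)) ∨
    ∀ M, ∃ m ≥ M,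
      rkF κ F (L m) + (orderOf (p : ZMod (ℓ ^ (m + 1))) : ℕ) ≤ rkF κ F (L (m + 1)) := by
  by_cases h2 : ∀ M, ∃ m ≥ M,
      rkF κ F (L m) + (orderOf (p : ZMod (ℓ ^ (m + 1))) : ℕ) ≤ rkF κ F (L (m + 1))
  · exact Or.inr h2
  left
  push Not at h2
  obtain ⟨M, hM⟩ := h2
  have h3 : ∀ m ≥ M, rkF κ F (L (m + 1)) = rkF κ F (L m) := by
    intro m hm
    obtain ⟨a1, a2, a3, a4⟩ := h m
    obtain ⟨b1, b2, b3, b4⟩ := h (m + 1)
    rcases gap hA hC (κ := κ) hF hℓ hne m (L m) (L (m + 1)) (hmono (Nat.le_succ m)) b1 b2 a2 b3 a4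
      with h4 | h4
    · exact h4
    · exact absurd h4 (not_le.2 (hM m hm))
  have h4 : ∀ m ≥ M, rkF κ F (L m) = rkF κ F (L M) := by
    intro m hm
    induction m, hm using Nat.le_induction with
    | base => rfl
    | succ m hm ih => rw [h3 m hm, ih]
  have hfin : rkF κ F (L M) < Cardinal.aleph0 := by
    by_contra hinf
    rw [not_lt] at hinf
    have h5 := hM M le_rfl
    rw [h3 M le_rfl] at h5
    exact absurd h5 (not_lt.2 (Cardinal.add_eq_left hinf
      ((Cardinal.natCast_lt_aleph0).le.trans hinf)).le)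
  refine ⟨M, hfin, fun K hK hKf => ?_⟩
  obtain ⟨m, hm, hKm⟩ := le_of_iSup hmono K hK hKf M
  obtain ⟨a1, a2, a3, a4⟩ := h m
  obtain ⟨c1, c2, c3, c4⟩ := h M
  haveI : Normal k (L m) := IsGalois.to_normal
  have hdm := deg_of (L m) a3
  haveI : FiniteDimensional k (K ⊓ L M : IntermediateField k A) := fd_of_le inf_le_left
  apply le_antisymm
  · have h6 := rk_super hA (κ := κ) hF (Ω := L m) inferInstance hdm K (L M) hKm (hmono hm)
      inferInstance inferInstance
    have h7 : rkF κ F (K ⊔ L M) ≤ rkF κ F (L m) :=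
      rk_mono hA (κ := κ) hF (Ω := L m) inferInstance hdm _ _ (sup_le hKm (hmono hm)) le_rfl a1
    rw [h4 m hm] at h7
    have h9 := h6.trans (add_le_add_left h7 _)
    exact (Cardinal.add_le_add_iff_of_lt_aleph0 hfin).1 (h9.trans (add_comm _ _).le)
  · exact rk_mono hA (κ := κ) hF (Ω := L m) inferInstance hdm _ _ inf_le_left hKm hKf

end ps

end Pool.Agent.U120.GapC
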