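import Mathlib

/-!
# The order of `p` modulo `ℓ ^ m` grows linearly in `ℓ ^ m`
-/

set_option autoImplicit false

namespace Pool.Agent.U120.GapD

theorem key {ℓ p : ℕ} (hℓ : ℓ.Prime) (hp : p.Prime) (hne : ℓ ≠ p) (m : ℕ) :
    orderOf (p : ZMod (ℓ ^ m)) ≠ 0 ∧ ℓ ^ m ∣ p ^ orderOf (p : ZMod (ℓ ^ m)) - 1 := by
  have hcop : p.Coprime (ℓ ^ m) :=
    Nat.Coprime.pow_right _ ((Nat.coprime_primes hp hℓ).2 (Ne.symm hne))
  have : NeZero (ℓ ^ m) := ⟨pow_ne_zero _ hℓ.ne_zero⟩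
  constructor
  · have h1 : ((ZMod.unitOfCoprime p hcop : (ZMod (ℓ ^ m))ˣ) : ZMod (ℓ ^ m)) = p :=
      ZMod.coe_unitOfCoprime p hcop
    rw [← h1, orderOf_units]
    exact (orderOf_pos _).ne'
  · have h2 : (p : ZMod (ℓ ^ m)) ^ orderOf (p : ZMod (ℓ ^ m)) = 1 := pow_orderOf_eq_one _
    rw [← ZMod.natCast_eq_zero_iff, Nat.cast_sub (Nat.one_le_pow _ _ hp.pos), Nat.cast_pow, h2,
      Nat.cast_one, sub_self]

theorem le_of_val {ℓ n : ℕ} (hn : n ≠ 0) : ℓ ^ padicValNat ℓ n ≤ n :=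
  Nat.le_of_dvd (Nat.pos_of_ne_zero hn) pow_padicValNat_dvd

theorem growth {ℓ p : ℕ} (hℓ : ℓ.Prime) (hp : p.Prime) (hne : ℓ ≠ p) :
    ∃ D : ℕ, ∀ m, ℓ ^ m ≤ D * orderOf (p : ZMod (ℓ ^ m)) := by
  have : Fact ℓ.Prime := ⟨hℓ⟩
  have hnd : ¬ ℓ ∣ p := fun h => hne ((Nat.prime_dvd_prime_iff_eq hℓ hp).1 h)
  by_cases h2 : ℓ = 2
  · subst h2
    have hp1 : 1 < p := hp.one_lt
    refine ⟨2 ^ (padicValNat 2 (p + 1) + padicValNat 2 (p - 1)), fun m => ?_⟩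
    obtain ⟨h0, h1⟩ := key hℓ hp hne m
    set n := orderOf (p : ZMod (2 ^ m)) with hn
    have h3 := padicValNat.pow_two_sub_pow (x := p) (y := 1) hp1 (by
      have := Nat.odd_iff.1 (hp.odd_of_ne_two (Ne.symm hne))
      omega) hnd (n := 2 * n) (by omega) (even_two_mul n)
    rw [one_pow, padicValNat.mul two_ne_zero h0, padicValNat.self (by norm_num)] at h3
    have h4 : 2 ^ m ∣ p ^ (2 * n) - 1 := by
      refine h1.trans ?_
      rw [mul_comm, pow_mul]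
      simpa using Nat.sub_dvd_pow_sub_pow (p ^ n) 1 2
    have h5 : p ^ (2 * n) - 1 ≠ 0 := by
      have : 1 < p ^ (2 * n) := Nat.one_lt_pow (by omega) hp1
      omega
    have h6 : m ≤ padicValNat 2 (p ^ (2 * n) - 1) := (padicValNat_dvd_iff_le h5).1 h4
    have h7 : m ≤ padicValNat 2 (p + 1) + padicValNat 2 (p - 1) + padicValNat 2 n := by omega
    calc 2 ^ m ≤ 2 ^ (padicValNat 2 (p + 1) + padicValNat 2 (p - 1) + padicValNat 2 n) :=
          Nat.pow_le_pow_right (by norm_num) h7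
      _ = 2 ^ (padicValNat 2 (p + 1) + padicValNat 2 (p - 1)) * 2 ^ padicValNat 2 n := pow_add _ _ _
      _ ≤ _ := Nat.mul_le_mul_left _ (le_of_val h0)
  · have hodd : Odd ℓ := hℓ.odd_of_ne_two h2
    set x := p ^ (ℓ - 1) with hx
    have hx1 : 1 < x := Nat.one_lt_pow (by have := hℓ.two_le; omega) hp.one_lt
    have hxd : ℓ ∣ x - 1 := by
      rw [← ZMod.natCast_eq_zero_iff, Nat.cast_sub hx1.le, hx, Nat.cast_pow, Nat.cast_one,
        ZMod.pow_card_sub_one_eq_one, sub_self]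
      rw [Ne, ZMod.natCast_eq_zero_iff]
      exact hnd
    have hxn : ¬ ℓ ∣ x := fun h => hnd (hℓ.dvd_of_dvd_pow h)
    refine ⟨ℓ ^ padicValNat ℓ (x - 1), fun m => ?_⟩
    obtain ⟨h0, h1⟩ := key hℓ hp hne m
    set n := orderOf (p : ZMod (ℓ ^ m)) with hn
    have h3 := padicValNat.pow_sub_pow hodd (x := x) (y := 1) hx1 hxd hxn h0
    rw [one_pow] at h3
    have h4 : ℓ ^ m ∣ x ^ n - 1 := by
      refine h1.trans ?_
      rw [hx, ← pow_mul, mul_comm, pow_mul]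
      simpa using Nat.sub_dvd_pow_sub_pow (p ^ n) 1 (ℓ - 1)
    have h5 : x ^ n - 1 ≠ 0 := by
      have : 1 < x ^ n := Nat.one_lt_pow h0 hx1
      omega
    have h6 : m ≤ padicValNat ℓ (x ^ n - 1) := (padicValNat_dvd_iff_le h5).1 h4
    rw [h3] at h6
    calc ℓ ^ m ≤ ℓ ^ (padicValNat ℓ (x - 1) + padicValNat ℓ n) :=
          Nat.pow_le_pow_right hℓ.pos h6
      _ = ℓ ^ padicValNat ℓ (x - 1) * ℓ ^ padicValNat ℓ n := pow_add _ _ _
      _ ≤ _ := Nat.mul_le_mul_left _ (le_of_val h0)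

end Pool.Agent.U120.GapD
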