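import Pool.Agent.U10.Mu.Data
import Pool.Agent.U120.GapC
import Pool.Agent.U120.GapD

/-!
# The jump theorem with a representation, `ℤ_ℓ`-extensions, and the case of `F_p[[T]]`-ranks
-/

set_option autoImplicit false
set_option linter.unusedSectionVars false
set_option linter.style.haveILetI false

namespace Pool.Agent.U120.GapE

open Module IntermediateField Pool.Agent.U10.Mu
open Pool.Agent.U10.Shr (fd_of_le)
open Pool.Agent.U120.GapB (rq tf trivial_of_quot)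
open Pool.Agent.U120.GapC

theorem jumpRep (hC : S_C) {p : ℕ} [hp : Fact p.Prime] (G S : Type) [Group G] [AddCommGroup S]
    [Module (PowerSeries (ZMod p)) S] [IsTorsionFree (PowerSeries (ZMod p)) S]
    (ρ : G →* Module.End (PowerSeries (ZMod p)) S) (N H : Subgroup G) [N.Normal] [H.Normal]
    (hNi : N.index ≠ 0) (hNp : ¬ p ∣ N.index) (hN : ∀ g ∈ N, ρ g = 1)
    (hfin : Module.rank (PowerSeries (ZMod p)) S < Cardinal.aleph0) :
    ∃ (d : ℕ) (φ : G →* GL (Fin d) (ZMod p)),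
      Module.rank (PowerSeries (ZMod p)) S =
        Module.rank (PowerSeries (ZMod p)) (Fx ρ H) + (d : Cardinal) ∧
      N ≤ φ.ker ∧ (d ≠ 0 → ¬ H ≤ φ.ker) := by
  have := tf ρ H
  have hq : Module.rank (PowerSeries (ZMod p)) (S ⧸ Fx ρ H) +
      Module.rank (PowerSeries (ZMod p)) (Fx ρ H) = Module.rank (PowerSeries (ZMod p)) S :=
    rank_quotient_add_rank_of_isDomain _
  have hqf : Module.rank (PowerSeries (ZMod p)) (S ⧸ Fx ρ H) < Cardinal.aleph0 :=
    (self_le_add_right _ _).trans_lt (hq.le.trans_lt hfin)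
  obtain ⟨d, hd⟩ := Cardinal.lt_aleph0.1 hqf
  set N' : Subgroup G := (rq ρ H).ker with hN'
  have hmem : ∀ g, rq ρ H g = 1 ↔ g ∈ N' := fun g => Iff.rfl
  have hNN' : N ≤ N' := by
    intro g hg
    rw [← hmem]
    ext x
    change Submodule.Quotient.mk (ρ g x) = Submodule.Quotient.mk x
    rw [hN g hg]
    rfl
  have hdvd : N'.index ∣ N.index := Subgroup.index_dvd_of_le hNN'
  obtain ⟨φ, hφ⟩ := hC p G (S ⧸ Fx ρ H) (rq ρ H) N' inferInstance
    (fun h => hNi (by rw [h, zero_dvd_iff] at hdvd; exact hdvd))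
    (fun h => hNp (h.trans hdvd)) hmem d hd
  refine ⟨d, φ, by rw [← hq, hd, add_comm], by rw [hφ]; exact hNN', ?_⟩
  intro hd0 hcase
  apply hd0
  rw [hφ] at hcase
  have hn : (N.index : PowerSeries (ZMod p)) ≠ 0 := by
    intro h
    apply hNp
    rw [← CharP.cast_eq_zero_iff (ZMod p) p]
    have h1 := congrArg (PowerSeries.constantCoeff (R := ZMod p)) h
    rwa [map_natCast, map_zero] at h1
  have htop := trivial_of_quot ρ H N.index hn (by
    intro g _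
    rw [← map_pow]
    exact hN _ (Subgroup.pow_index_mem N g)) (fun g hg => (hmem g).2 (hcase hg))
  have h1 : Subsingleton (S ⧸ Fx ρ H) := Submodule.Quotient.subsingleton_iff.2 htop
  rw [rank_subsingleton'] at hd
  exact_mod_cast hd.symm

section ps

variable {k A : Type} [Field k] [Field A] [Algebra k A] [IsGalois k A]
variable {p : ℕ} [hp : Fact p.Prime] [TopologicalSpace (PowerSeries (ZMod p))]
  [IsTopologicalRing (PowerSeries (ZMod p))]

theorem gapRep (hA : S_A) (hC : S_C) {κ : (A ≃ₐ[k] A) →* PowerSeries (ZMod p)}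
    {F : Set (Subgroup (A ≃ₐ[k] A))} (hF : Stab F)
    (K' K : IntermediateField k A) (hle : K' ≤ K) (hf : FiniteDimensional k K)
    (hg : IsGalois k K) (hg' : IsGalois k K') (hd : ¬ p ∣ finrank k K)
    (hfin : rkF κ F K < Cardinal.aleph0) :
    ∃ (d : ℕ) (φ : (K ≃ₐ[k] K) →* GL (Fin d) (ZMod p)),
      rkF κ F K = rkF κ F K' + (d : Cardinal) ∧
      (d ≠ 0 → ∃ σ : K ≃ₐ[k] K, (∀ x : K, (x : A) ∈ K' → σ x = x) ∧ φ σ ≠ 1) := by
  have hd' : Deg (PowerSeries (ZMod p)) K := deg_of K hd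
  haveI : FiniteDimensional k K' := fd_of_le hle
  obtain ⟨S, _, _, _, ρ, h5, h6⟩ := exists_rep hA (κ := κ) hF hd' K le_rfl hf inferInstance
  haveI hN : K.fixingSubgroup.Normal := (InfiniteGalois.normal_iff_isGalois _).2 inferInstance
  haveI hH : K'.fixingSubgroup.Normal := (InfiniteGalois.normal_iff_isGalois _).2 inferInstance
  have hi : K.fixingSubgroup.index = finrank k K := by
    rw [finrank_eq_fixingSubgroup_index]
  have hle' : K.fixingSubgroup ≤ K'.fixingSubgroup := IntermediateField.fixingSubgroup_antitone hle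
  have htop : Fx ρ K.fixingSubgroup = ⊤ := by
    rw [eq_top_iff]
    intro x _ h hh
    rw [h5 h hh]
    rfl
  have e1 : rkF κ F K = Module.rank (PowerSeries (ZMod p)) S := by
    unfold rkF
    rw [h6 _ le_rfl, htop, rank_top]
  have e2 : rkF κ F K' = Module.rank (PowerSeries (ZMod p)) (Fx ρ K'.fixingSubgroup) := by
    unfold rkF
    rw [h6 _ hle']
  obtain ⟨d, φ, h1, h2, h3⟩ := jumpRep hC _ S ρ K.fixingSubgroup K'.fixingSubgroup
    (by rw [hi]; exact finrank_pos.ne') (by rw [hi]; exact hd) h5 (by rw [← e1]; exact hfin)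
  have hker : (AlgEquiv.restrictNormalHom K : (A ≃ₐ[k] A) →* (K ≃ₐ[k] K)).ker =
      K.fixingSubgroup := IntermediateField.restrictNormalHom_ker K
  have hsur : Function.Surjective
      (AlgEquiv.restrictNormalHom K : (A ≃ₐ[k] A) →* (K ≃ₐ[k] K)) :=
    AlgEquiv.restrictNormalHom_surjective A
  refine ⟨d, MonoidHom.liftOfSurjective _ hsur ⟨φ, by rw [hker]; exact h2⟩,
    by rw [e1, e2, h1], ?_⟩
  intro hd0
  obtain ⟨g, hgH, hgφ⟩ := Set.not_subset.1 (h3 hd0)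
  refine ⟨AlgEquiv.restrictNormalHom K g, ?_, ?_⟩
  · intro x hx
    apply Subtype.ext
    rw [res_apply]
    exact (IntermediateField.mem_fixingSubgroup_iff _ _).1 hgH _ hx
  · have h4 : MonoidHom.liftOfSurjective _ hsur ⟨φ, by rw [hker]; exact h2⟩
      (AlgEquiv.restrictNormalHom K g) = φ g :=
      MonoidHom.liftOfRightInverse_comp_apply _ _ _ _ g
    rw [h4]
    exact hgφ

theorem zl (hA : S_A) (hC : S_C) {κ : (A ≃ₐ[k] A) →* PowerSeries (ZMod p)}
    {F : Set (Subgroup (A ≃ₐ[k] A))} (hF : Stab F) {ℓ : ℕ} (hℓ : ℓ.Prime) (hne : ℓ ≠ p)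
    (L : ℕ → IntermediateField k A) (hmono : Monotone L)
    (h : ∀ m, finrank k (L m) = ℓ ^ m ∧ IsGalois k (L m) ∧ IsCyclic (L m ≃ₐ[k] L m)) :
    (∀ m, rkF κ F (L (m + 1)) = rkF κ F (L m) ∨
      rkF κ F (L m) + (orderOf (p : ZMod (ℓ ^ (m + 1))) : ℕ) ≤ rkF κ F (L (m + 1))) ∧
    ((∃ m₀, rkF κ F (L m₀) < Cardinal.aleph0 ∧ ∀ K ≤ ⨆ m, L m, FiniteDimensional k K →
      rkF κ F K = rkF κ F (K ⊓ L m₀)) ∨
    ∃ D : ℕ, ∀ M, ∃ m ≥ M, (finrank k (L m) : Cardinal) ≤ D * rkF κ F (L m)) := by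
  have hfd : ∀ m, FiniteDimensional k (L m) := fun m =>
    FiniteDimensional.of_finrank_pos (by rw [(h m).1]; exact pow_pos hℓ.pos m)
  have hnd : ∀ m, ¬ p ∣ finrank k (L m) := by
    intro m hm
    rw [(h m).1] at hm
    exact hne ((Nat.prime_dvd_prime_iff_eq hp.out hℓ).1 (hp.out.dvd_of_dvd_pow hm)).symm
  have hP : ∀ m, PowF ℓ m (L m) (L (m + 1)) := fun m =>
    cyc hℓ m (L m) (L (m + 1)) (hmono (Nat.le_succ m)) (hfd _) (h (m + 1)).2.1 (h m).2.1 (h m).1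
      (h (m + 1)).1 (h (m + 1)).2.2
  refine ⟨fun m => gap hA hC (κ := κ) hF hℓ hne m (L m) (L (m + 1)) (hmono (Nat.le_succ m))
    (hfd _) (h (m + 1)).2.1 (h m).2.1 (hnd _) (hP m), ?_⟩
  rcases tower hA hC (κ := κ) hF hℓ hne L hmono
    (fun m => ⟨hfd m, (h m).2.1, hnd m, hP m⟩) with h1 | h1
  · exact Or.inl h1
  right
  obtain ⟨D, hD⟩ := Pool.Agent.U120.GapD.growth hℓ hp.out hne
  refine ⟨D, fun M => ?_⟩
  obtain ⟨m, hm, h2⟩ := h1 M
  refine ⟨m + 1, by omega, ?_⟩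
  rw [(h (m + 1)).1]
  have h3 : ((orderOf (p : ZMod (ℓ ^ (m + 1))) : ℕ) : Cardinal) ≤ rkF κ F (L (m + 1)) :=
    (self_le_add_left _ _).trans h2
  have h4 : ((ℓ ^ (m + 1) : ℕ) : Cardinal) ≤
      ((D * orderOf (p : ZMod (ℓ ^ (m + 1))) : ℕ) : Cardinal) := by
    exact_mod_cast hD (m + 1)
  refine h4.trans ?_
  rw [Nat.cast_mul]
  gcongr

end ps

section field

open scoped PowerSeries.WithPiTopology

variable {k : Type} [Field k] (p : ℕ) [hp : Fact p.Prime]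

theorem mainG [CharZero k] (hA : S_A) (hC : S_C)
    (a : (AlgebraicClosure k ≃ₐ[k] AlgebraicClosure k) →* Multiplicative ℤ_[p])
    {F : Set (Subgroup (AlgebraicClosure k ≃ₐ[k] AlgebraicClosure k))} (hF : Stab F)
    (ℓ : ℕ) (hℓ : ℓ.Prime) (hne : ℓ ≠ p) :
    (∀ K' K : IntermediateField k (AlgebraicClosure k), K' ≤ K →
      FiniteDimensional k K → IsGalois k K → IsGalois k K' → ¬ p ∣ finrank k K →
      (rkE p a F K < Cardinal.aleph0 →
        ∃ (d : ℕ) (φ : (K ≃ₐ[k] K) →* GL (Fin d) (ZMod p)),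
          rkE p a F K = rkE p a F K' + (d : Cardinal) ∧
          (d ≠ 0 → ∃ σ : K ≃ₐ[k] K,
            (∀ x : K, (x : AlgebraicClosure k) ∈ K' → σ x = x) ∧ φ σ ≠ 1)) ∧
      ∀ m : ℕ, PowF ℓ m K' K → rkE p a F K = rkE p a F K' ∨
        rkE p a F K' + (orderOf (p : ZMod (ℓ ^ (m + 1))) : ℕ) ≤ rkE p a F K) ∧
    (∀ L : ℕ → IntermediateField k (AlgebraicClosure k), Monotone L →
      (∀ m, FiniteDimensional k (L m) ∧ IsGalois k (L m) ∧ ¬ p ∣ finrank k (L m) ∧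
        PowF ℓ m (L m) (L (m + 1))) →
      (∃ m₀, rkE p a F (L m₀) < Cardinal.aleph0 ∧ ∀ K ≤ ⨆ m, L m, FiniteDimensional k K →
        rkE p a F K = rkE p a F (K ⊓ L m₀)) ∨
      ∀ M, ∃ m ≥ M, rkE p a F (L m) + (orderOf (p : ZMod (ℓ ^ (m + 1))) : ℕ) ≤
        rkE p a F (L (m + 1))) ∧
    (∀ L : ℕ → IntermediateField k (AlgebraicClosure k), Monotone L →
      (∀ m, finrank k (L m) = ℓ ^ m ∧ IsGalois k (L m) ∧ IsCyclic (L m ≃ₐ[k] L m)) →
      (∀ m, rkE p a F (L (m + 1)) = rkE p a F (L m) ∨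
        rkE p a F (L m) + (orderOf (p : ZMod (ℓ ^ (m + 1))) : ℕ) ≤ rkE p a F (L (m + 1))) ∧
      ((∃ m₀, rkE p a F (L m₀) < Cardinal.aleph0 ∧ ∀ K ≤ ⨆ m, L m, FiniteDimensional k K →
        rkE p a F K = rkE p a F (K ⊓ L m₀)) ∨
      ∃ D : ℕ, ∀ M, ∃ m ≥ M, (finrank k (L m) : Cardinal) ≤ D * rkE p a F (L m))) := by
  have he : rkE p a F = rkF (kap p a) F := funext (rkE_eq p a F)
  rw [he]
  refine ⟨fun K' K hle hf hg hg' hd => ⟨fun hfin => ?_, fun m hP => ?_⟩, fun L hmono h => ?_,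
    fun L hmono h => ?_⟩
  · exact gapRep hA hC (κ := kap p a) hF K' K hle hf hg hg' hd hfin
  · exact gap hA hC (κ := kap p a) hF hℓ hne m K' K hle hf hg hg' hd hP
  · exact tower hA hC (κ := kap p a) hF hℓ hne L hmono h
  · exact zl hA hC (κ := kap p a) hF hℓ hne L hmono h

end field

end Pool.Agent.U120.GapE
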