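import Pool.Agent.U120.GapG

/-!
# Twists by characters with values in `F_p`: the controlling field
-/

set_option autoImplicit false
set_option linter.unusedSectionVars false

namespace Pool.Agent.U120.GapH

open Module IntermediateField Pool.Agent.U10.Mu
open Pool.Agent.U120.GapG
open scoped PowerSeries.WithPiTopology

variable (p : ℕ) [hp : Fact p.Prime] {k : Type} [Field k]

theorem ctlT [CharZero k] (hA : S_A) (hC : S_C)
    (a : (AlgebraicClosure k ≃ₐ[k] AlgebraicClosure k) →* Multiplicative ℤ_[p])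
    (ψ : (AlgebraicClosure k ≃ₐ[k] AlgebraicClosure k) →* (ZMod p)ˣ)
    {F : Set (Subgroup (AlgebraicClosure k ≃ₐ[k] AlgebraicClosure k))} (hF : Stab F)
    (Ω : IntermediateField k (AlgebraicClosure k)) (hn : Normal k Ω)
    (hd : ∀ K ≤ Ω, FiniteDimensional k K → ¬ p ∣ finrank k K) :
    (∀ K K' : IntermediateField k (AlgebraicClosure k), K ≤ Ω → K' ≤ Ω →
      FiniteDimensional k K → FiniteDimensional k K' →
      rkT p a ψ F K + rkT p a ψ F K' ≤ rkT p a ψ F (K ⊔ K') + rkT p a ψ F (K ⊓ K')) ∧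
    ((∃ m : ℕ, ∀ K ≤ Ω, FiniteDimensional k K → rkT p a ψ F K ≤ m) →
      ∃ K₀ ≤ Ω, FiniteDimensional k K₀ ∧ IsGalois k K₀ ∧
        (∀ K ≤ Ω, FiniteDimensional k K → rkT p a ψ F K = rkT p a ψ F (K ⊓ K₀)) ∧
        (∀ K₁ ≤ Ω, FiniteDimensional k K₁ →
          (∀ K ≤ Ω, FiniteDimensional k K → rkT p a ψ F K = rkT p a ψ F (K ⊓ K₁)) → K₀ ≤ K₁) ∧
        ∃ φ : (K₀ ≃ₐ[k] K₀) →* GL (Fin (rkT p a ψ F K₀).toNat) (ZMod p),
          Function.Injective φ) := by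
  have he : rkT p a ψ F = rkF (kap2 p a ψ) F := funext (rkT_eq p a ψ F)
  rw [he]
  obtain ⟨h1, -, h3⟩ := main hA hC (κ := kap2 p a ψ) hF Ω hn hd
  refine ⟨h1, fun h => ?_⟩
  obtain ⟨K₀, c1, c2, c3, c4, c5, -, -, c6⟩ := h3 h
  exact ⟨K₀, c1, c2, c3, c4, c5, c6⟩

end Pool.Agent.U120.GapH
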