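import Pool.Agent.U120.GapG

/-!
# Twists by characters with values in `F_p`: all parts of the theorem on the controlling field
-/

set_option autoImplicit false
set_option linter.unusedSectionVars false

namespace Pool.Agent.U120.GapI

open Module IntermediateField Pool.Agent.U10.Mu
open Pool.Agent.U120.GapG
open scoped PowerSeries.WithPiTopology

variable (p : ℕ) [hp : Fact p.Prime] {k : Type} [Field k]

theorem ctlT [CharZero k] (hA : S_A) (hC : S_C)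
    (a : (AlgebraicClosure k ≃ₐ[k] AlgebraicClosure k) →* Multiplicative ℤ_[p])
    (ψ : (AlgebraicClosure k ≃ₐ[k] AlgebraicClosure k) →* (ZMod p)ˣ)
    {F : Set (Subgroup (AlgebraicClosure k ≃ₐ[k] AlgebraicClosure k))} (hF : Stab F)
    (Ω : IntermediateField k (AlgebraicClosure k)) (hn : Normal k Ω)
    (hd : ∀ K ≤ Ω, FiniteDimensional k K → ¬ p ∣ finrank k K) :
    (∀ K K' : IntermediateField k (AlgebraicClosure k), K ≤ Ω → K' ≤ Ω →
      FiniteDimensional k K → FiniteDimensional k K' →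
      rkT p a ψ F K + rkT p a ψ F K' ≤ rkT p a ψ F (K ⊔ K') + rkT p a ψ F (K ⊓ K')) ∧
    ((∃ m : ℕ, ∀ K ≤ Ω, FiniteDimensional k K → rkT p a ψ F K ≤ m) ↔
      ∃ K₁ ≤ Ω, FiniteDimensional k K₁ ∧ rkT p a ψ F K₁ < Cardinal.aleph0 ∧
        ∀ K ≤ Ω, FiniteDimensional k K → rkT p a ψ F K = rkT p a ψ F (K ⊓ K₁)) ∧
    ((∃ m : ℕ, ∀ K ≤ Ω, FiniteDimensional k K → rkT p a ψ F K ≤ m) →
      ∃ K₀ ≤ Ω, FiniteDimensional k K₀ ∧ IsGalois k K₀ ∧
        (∀ K ≤ Ω, FiniteDimensional k K → rkT p a ψ F K = rkT p a ψ F (K ⊓ K₀)) ∧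
        (∀ K₁ ≤ Ω, FiniteDimensional k K₁ →
          (∀ K ≤ Ω, FiniteDimensional k K → rkT p a ψ F K = rkT p a ψ F (K ⊓ K₁)) → K₀ ≤ K₁) ∧
        (∀ K ≤ Ω, FiniteDimensional k K → Nat.Coprime (finrank k K) (finrank k K₀) →
          rkT p a ψ F K = rkT p a ψ F ⊥) ∧
        (rkT p a ψ F K₀ ≤ 1 → IsCyclic (K₀ ≃ₐ[k] K₀) ∧ finrank k K₀ ∣ p - 1) ∧
        (∀ ℓ e : ℕ, ℓ.Prime → ∀ σ : K₀ ≃ₐ[k] K₀, orderOf σ = ℓ ^ (e + 1) →
          (orderOf (p : ZMod (ℓ ^ (e + 1))) : Cardinal) ≤ rkT p a ψ F K₀) ∧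
        ∃ φ : (K₀ ≃ₐ[k] K₀) →* GL (Fin (rkT p a ψ F K₀).toNat) (ZMod p),
          Function.Injective φ) := by
  have he : rkT p a ψ F = rkF (kap2 p a ψ) F := funext (rkT_eq p a ψ F)
  rw [he]
  obtain ⟨h1, h2, h3⟩ := main hA hC (κ := kap2 p a ψ) hF Ω hn hd
  refine ⟨h1, h2, fun h => ?_⟩
  obtain ⟨K₀, c1, c2, c3, c4, c5, c6, -, φ, hφ⟩ := h3 h
  have hfin : rkF (kap2 p a ψ) F K₀ < Cardinal.aleph0 := by
    obtain ⟨m, hm⟩ := h
    exact (hm K₀ c1 c2).trans_lt Cardinal.natCast_lt_aleph0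
  refine ⟨K₀, c1, c2, c3, c4, c5, c6, fun hle => ?_, fun ℓ e hℓ σ hσ => ?_, φ, hφ⟩
  swap
  · have hne : ℓ ≠ p := by
      intro h7
      apply hd K₀ c1 c2
      rw [← IsGalois.card_aut_eq_finrank, ← h7]
      refine dvd_trans ?_ (orderOf_dvd_natCard σ)
      rw [hσ, pow_succ]
      exact dvd_mul_left _ _
    have e1 : (φ σ) ^ ℓ ^ (e + 1) = 1 := by
      rw [← map_pow, ← hσ, pow_orderOf_eq_one, map_one]
    have e2 : (φ σ) ^ ℓ ^ e ≠ 1 := by
      intro h8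
      rw [← map_pow, ← map_one φ] at h8
      have h9 := orderOf_dvd_of_pow_eq_one (hφ h8)
      rw [hσ] at h9
      have h10 := (Nat.pow_dvd_pow_iff_le_right hℓ.one_lt).1 h9
      omega
    have h11 := Pool.Agent.U120.GapA.gl_le hℓ hne e _ (φ σ) (e + 1) e1 e2
    rw [← Cardinal.cast_toNat_of_lt_aleph0 hfin]
    exact_mod_cast h11
  -- an injective homomorphism to the units of `F_p`
  have hle1 : (rkF (kap2 p a ψ) F K₀).toNat ≤ 1 := by
    have h4 := Cardinal.toNat_le_toNat hle Cardinal.one_lt_aleph0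
    rwa [map_one] at h4
  obtain ⟨f, hf⟩ : ∃ f : (K₀ ≃ₐ[k] K₀) →* (ZMod p)ˣ, Function.Injective f := by
    have key : ∀ c : ℕ, c ≤ 1 → ∀ g : (K₀ ≃ₐ[k] K₀) →* GL (Fin c) (ZMod p),
        Function.Injective g → ∃ f : (K₀ ≃ₐ[k] K₀) →* (ZMod p)ˣ, Function.Injective f := by
      intro c hc g hg
      refine ⟨Matrix.GeneralLinearGroup.det.comp g, fun x y hxy => hg ?_⟩
      have h5 : (g x).1.det = (g y).1.det := congrArg Units.val hxy
      apply Units.ext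
      interval_cases c
      · ext i
        exact i.elim0
      · ext i j
        rw [Matrix.det_fin_one, Matrix.det_fin_one] at h5
        rw [Subsingleton.elim i 0, Subsingleton.elim j 0]
        exact h5
    exact key _ hle1 φ hφ
  refine ⟨isCyclic_of_injective f hf, ?_⟩
  rw [← IsGalois.card_aut_eq_finrank]
  have h6 := Subgroup.card_dvd_of_injective f hf
  rwa [Nat.card_eq_fintype_card (α := (ZMod p)ˣ), ZMod.card_units] at h6

end Pool.Agent.U120.GapI
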