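import Pool.Agent.U120.GapE

/-!
# `ℤ_ℓ ^ s`-extensions
-/

set_option autoImplicit false
set_option linter.unusedSectionVars false
set_option linter.style.haveILetI false

namespace Pool.Agent.U120.GapF

open Module IntermediateField Pool.Agent.U10.Mu
open Pool.Agent.U10.Shr (fd_of_le)
open Pool.Agent.U120.GapC Pool.Agent.U120.GapE

/-- The elements of `(ℤ/ℓ ^ (m + 1)) ^ s` killed by `ℓ ^ m`. -/
theorem card_ker_le {ℓ : ℕ} (hℓ : ℓ.Prime) (s m : ℕ) :
    Nat.card (powMonoidHom (ℓ ^ m) : Multiplicative (Fin s → ZMod (ℓ ^ (m + 1))) →* _).ker ≤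
      (ℓ ^ m) ^ s := by
  classical
  haveI : NeZero (ℓ ^ (m + 1)) := ⟨pow_ne_zero _ hℓ.ne_zero⟩
  have h1 : Nat.card {x : ZMod (ℓ ^ (m + 1)) // ℓ ^ m • x = 0} ≤ ℓ ^ m := by
    have h2 := IsAddCyclic.card_nsmul_eq_zero_le (α := ZMod (ℓ ^ (m + 1))) (n := ℓ ^ m)
      (pow_pos hℓ.pos m)
    rw [Nat.card_eq_fintype_card, Fintype.card_subtype]
    exact h2
  let f : (powMonoidHom (ℓ ^ m) : Multiplicative (Fin s → ZMod (ℓ ^ (m + 1))) →* _).ker →
      (Fin s → {x : ZMod (ℓ ^ (m + 1)) // ℓ ^ m • x = 0}) := fun v i =>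
    ⟨(Multiplicative.toAdd v.1) i, by
      have h3 : (v.1) ^ (ℓ ^ m) = 1 := v.2
      have h4 := congrArg (fun w => (Multiplicative.toAdd w) i) h3
      exact h4⟩
  have hf : Function.Injective f := by
    intro v w hvw
    apply Subtype.ext
    apply Multiplicative.toAdd.injective
    funext i
    exact congrArg Subtype.val (congrFun hvw i)
  calc Nat.card _ ≤ Nat.card (Fin s → {x : ZMod (ℓ ^ (m + 1)) // ℓ ^ m • x = 0}) :=
        Nat.card_le_card_of_injective f hf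
    _ = (Nat.card {x : ZMod (ℓ ^ (m + 1)) // ℓ ^ m • x = 0}) ^ s := by
        rw [Nat.card_fun, Nat.card_fin]
    _ ≤ _ := Nat.pow_le_pow_left h1 s

theorem card_pi {ℓ : ℕ} (s m : ℕ) :
    Nat.card (Multiplicative (Fin s → ZMod (ℓ ^ m))) = (ℓ ^ m) ^ s := by
  rw [Nat.card_congr Multiplicative.toAdd, Nat.card_fun, Nat.card_fin, Nat.card_zmod]

section

variable {k A : Type} [Field k] [Field A] [Algebra k A] [IsGalois k A]

theorem abel {ℓ : ℕ} (hℓ : ℓ.Prime) (s m : ℕ) (K' K : IntermediateField k A) (hle : K' ≤ K)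
    (hf : FiniteDimensional k K) (hg : IsGalois k K) (hg' : IsGalois k K')
    (e' : (K' ≃ₐ[k] K') ≃* Multiplicative (Fin s → ZMod (ℓ ^ m)))
    (e : (K ≃ₐ[k] K) ≃* Multiplicative (Fin s → ZMod (ℓ ^ (m + 1)))) :
    PowF ℓ m K' K := by
  intro x hx
  haveI : FiniteDimensional k K' := fd_of_le hle
  haveI : NeZero (ℓ ^ (m + 1)) := ⟨pow_ne_zero _ hℓ.ne_zero⟩
  set L : IntermediateField k K := IntermediateField.restrict hle with hL
  haveI : IsGalois k L := IsGalois.of_algEquiv (IntermediateField.restrictAlgEquiv hle)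
  haveI : Normal k L := IsGalois.to_normal
  have hLe : finrank k L = (ℓ ^ m) ^ s := by
    have h1 : finrank k L = finrank k K' :=
      (IntermediateField.restrictAlgEquiv hle).toLinearEquiv.finrank_eq.symm
    rw [h1, ← IsGalois.card_aut_eq_finrank, Nat.card_congr e'.toEquiv, card_pi]
  have hKe : finrank k K = (ℓ ^ (m + 1)) ^ s := by
    rw [← IsGalois.card_aut_eq_finrank, Nat.card_congr e.toEquiv, card_pi]
  -- every element of the Galois group of `L` is killed by `ℓ ^ m`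
  have hkill : ∀ τ : L ≃ₐ[k] L, τ ^ ℓ ^ m = 1 := by
    intro τ
    let g : (L ≃ₐ[k] L) ≃* (K' ≃ₐ[k] K') :=
      AlgEquiv.autCongr (IntermediateField.restrictAlgEquiv hle).symm
    apply (g.trans e').injective
    rw [map_pow, map_one]
    apply Multiplicative.toAdd.injective
    rw [toAdd_pow, toAdd_one]
    funext i
    rw [Pi.smul_apply, Pi.zero_apply, nsmul_eq_mul, ZMod.natCast_self, zero_mul]
  set B := Multiplicative (Fin s → ZMod (ℓ ^ (m + 1))) with hB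
  let P : Subgroup B := (powMonoidHom (ℓ ^ m) : B →* B).range
  let H : Subgroup B := L.fixingSubgroup.map (e : (K ≃ₐ[k] K) →* B)
  haveI : Finite B := Finite.of_injective e.symm e.symm.injective
  have hPH : P ≤ H := by
    rintro _ ⟨b, rfl⟩
    refine ⟨(e.symm b) ^ ℓ ^ m, ?_, ?_⟩
    · rw [← IntermediateField.restrictNormalHom_ker L]
      change AlgEquiv.restrictNormalHom L ((e.symm b) ^ ℓ ^ m) = 1
      rw [map_pow]
      exact hkill _
    · change e ((e.symm b) ^ ℓ ^ m) = b ^ ℓ ^ m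
      rw [map_pow, MulEquiv.apply_symm_apply]
  have hcH : Nat.card H * (ℓ ^ m) ^ s = (ℓ ^ (m + 1)) ^ s := by
    have h1 : Nat.card H = Nat.card L.fixingSubgroup :=
      (Nat.card_congr (L.fixingSubgroup.equivMapOfInjective (e : (K ≃ₐ[k] K) →* B)
        e.injective).toEquiv).symm
    rw [h1, IsGalois.card_fixingSubgroup_eq_finrank, ← hLe, ← hKe, mul_comm]
    exact Module.finrank_mul_finrank k L K
  have hcP : (ℓ ^ (m + 1)) ^ s ≤ Nat.card P * (ℓ ^ m) ^ s := by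
    have h1 := (powMonoidHom (ℓ ^ m) : B →* B).ker.card_mul_index
    rw [Subgroup.index_ker] at h1
    rw [← card_pi (ℓ := ℓ) s (m + 1), ← h1, mul_comm]
    exact Nat.mul_le_mul_left _ (card_ker_le hℓ s m)
  have hPHe : P = H := by
    apply Subgroup.eq_of_le_of_card_ge hPH
    have h1 : Nat.card H * (ℓ ^ m) ^ s ≤ Nat.card P * (ℓ ^ m) ^ s := hcH.le.trans hcP
    exact Nat.le_of_mul_le_mul_right h1 (pow_pos (pow_pos hℓ.pos m) s)
  have hfix : ∀ h ∈ L.fixingSubgroup, h x = x := by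
    intro h hh
    have h1 : e h ∈ H := ⟨h, hh, rfl⟩
    rw [← hPHe] at h1
    obtain ⟨b, hb⟩ := h1
    have h2 : h = (e.symm b) ^ ℓ ^ m := by
      apply e.injective
      rw [map_pow, MulEquiv.apply_symm_apply]
      exact hb.symm
    rw [h2]
    refine hx _ ⟨m + 1, ?_⟩
    apply e.injective
    rw [map_pow, MulEquiv.apply_symm_apply, map_one]
    apply Multiplicative.toAdd.injective
    rw [toAdd_pow, toAdd_one]
    funext i
    rw [Pi.smul_apply, Pi.zero_apply, nsmul_eq_mul, ZMod.natCast_self, zero_mul]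
  have hxL : x ∈ L := by
    rw [← IsGalois.fixedField_fixingSubgroup L, IntermediateField.mem_fixedField_iff]
    exact hfix
  exact (IntermediateField.mem_restrict hle x).1 hxL

end

section ps

variable {k A : Type} [Field k] [Field A] [Algebra k A] [IsGalois k A]
variable {p : ℕ} [hp : Fact p.Prime] [TopologicalSpace (PowerSeries (ZMod p))]
  [IsTopologicalRing (PowerSeries (ZMod p))]

theorem zls (hA : S_A) (hC : S_C) {κ : (A ≃ₐ[k] A) →* PowerSeries (ZMod p)}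
    {F : Set (Subgroup (A ≃ₐ[k] A))} (hF : Stab F) {ℓ : ℕ} (hℓ : ℓ.Prime) (hne : ℓ ≠ p) (s : ℕ)
    (L : ℕ → IntermediateField k A) (hmono : Monotone L)
    (h : ∀ m, FiniteDimensional k (L m) ∧ IsGalois k (L m) ∧
      Nonempty ((L m ≃ₐ[k] L m) ≃* Multiplicative (Fin s → ZMod (ℓ ^ m)))) :
    (∀ m, rkF κ F (L (m + 1)) = rkF κ F (L m) ∨
      rkF κ F (L m) + (orderOf (p : ZMod (ℓ ^ (m + 1))) : ℕ) ≤ rkF κ F (L (m + 1))) ∧
    ((∃ m₀, rkF κ F (L m₀) < Cardinal.aleph0 ∧ ∀ K ≤ ⨆ m, L m, FiniteDimensional k K →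
      rkF κ F K = rkF κ F (K ⊓ L m₀)) ∨
    ∃ D : ℕ, ∀ M, ∃ m ≥ M, ((ℓ ^ m : ℕ) : Cardinal) ≤ D * rkF κ F (L m)) := by
  have hfd : ∀ m, FiniteDimensional k (L m) := fun m => (h m).1
  have hnd : ∀ m, ¬ p ∣ finrank k (L m) := by
    intro m hm
    haveI := (h m).1
    haveI := (h m).2.1
    obtain ⟨e⟩ := (h m).2.2
    rw [← IsGalois.card_aut_eq_finrank, Nat.card_congr e.toEquiv, card_pi] at hm
    exact hne ((Nat.prime_dvd_prime_iff_eq hp.out hℓ).1
      (hp.out.dvd_of_dvd_pow (hp.out.dvd_of_dvd_pow hm))).symm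
  have hP : ∀ m, PowF ℓ m (L m) (L (m + 1)) := by
    intro m
    obtain ⟨e'⟩ := (h m).2.2
    obtain ⟨e⟩ := (h (m + 1)).2.2
    exact abel hℓ s m (L m) (L (m + 1)) (hmono (Nat.le_succ m)) (hfd _) (h (m + 1)).2.1
      (h m).2.1 e' e
  refine ⟨fun m => gap hA hC (κ := κ) hF hℓ hne m (L m) (L (m + 1)) (hmono (Nat.le_succ m))
    (hfd _) (h (m + 1)).2.1 (h m).2.1 (hnd _) (hP m), ?_⟩
  rcases tower hA hC (κ := κ) hF hℓ hne L hmono
    (fun m => ⟨hfd m, (h m).2.1, hnd m, hP m⟩) with h1 | h1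
  · exact Or.inl h1
  right
  obtain ⟨D, hD⟩ := Pool.Agent.U120.GapD.growth hℓ hp.out hne
  refine ⟨D, fun M => ?_⟩
  obtain ⟨m, hm, h2⟩ := h1 M
  refine ⟨m + 1, by omega, ?_⟩
  have h3 : ((orderOf (p : ZMod (ℓ ^ (m + 1))) : ℕ) : Cardinal) ≤ rkF κ F (L (m + 1)) :=
    (self_le_add_left _ _).trans h2
  have h4 : ((ℓ ^ (m + 1) : ℕ) : Cardinal) ≤
      ((D * orderOf (p : ZMod (ℓ ^ (m + 1))) : ℕ) : Cardinal) := by
    exact_mod_cast hD (m + 1)
  refine h4.trans ?_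
  rw [Nat.cast_mul]
  gcongr

end ps

section field

open scoped PowerSeries.WithPiTopology

variable {k : Type} [Field k] (p : ℕ) [hp : Fact p.Prime]

theorem mainH [CharZero k] (hA : S_A) (hC : S_C)
    (a : (AlgebraicClosure k ≃ₐ[k] AlgebraicClosure k) →* Multiplicative ℤ_[p])
    {F : Set (Subgroup (AlgebraicClosure k ≃ₐ[k] AlgebraicClosure k))} (hF : Stab F)
    (ℓ : ℕ) (hℓ : ℓ.Prime) (hne : ℓ ≠ p) (s : ℕ)
    (L : ℕ → IntermediateField k (AlgebraicClosure k)) (hmono : Monotone L)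
    (h : ∀ m, FiniteDimensional k (L m) ∧ IsGalois k (L m) ∧
      Nonempty ((L m ≃ₐ[k] L m) ≃* Multiplicative (Fin s → ZMod (ℓ ^ m)))) :
    (∀ m, rkE p a F (L (m + 1)) = rkE p a F (L m) ∨
      rkE p a F (L m) + (orderOf (p : ZMod (ℓ ^ (m + 1))) : ℕ) ≤ rkE p a F (L (m + 1))) ∧
    ((∃ m₀, rkE p a F (L m₀) < Cardinal.aleph0 ∧ ∀ K ≤ ⨆ m, L m, FiniteDimensional k K →
      rkE p a F K = rkE p a F (K ⊓ L m₀)) ∨
    ∃ D : ℕ, ∀ M, ∃ m ≥ M, ((ℓ ^ m : ℕ) : Cardinal) ≤ D * rkE p a F (L m)) := by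
  have he : rkE p a F = rkF (kap p a) F := funext (rkE_eq p a F)
  rw [he]
  exact zls hA hC (κ := kap p a) hF hℓ hne s L hmono h

end field

end Pool.Agent.U120.GapF
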