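import Pool.Agent.U120.GapF

/-!
# Twists by characters with values in `F_p`
-/

set_option autoImplicit false
set_option linter.unusedSectionVars false
set_option linter.style.haveILetI false

namespace Pool.Agent.U120.GapG

open Module IntermediateField Pool.Agent.U10.Mu
open Pool.Agent.U120.GapC Pool.Agent.U120.GapE Pool.Agent.U120.GapF
open scoped PowerSeries.WithPiTopology

variable (p : ℕ) [hp : Fact p.Prime] {G : Type} [Group G] [TopologicalSpace G]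

/-- The character `ψ` as a character with values in `F_p[[T]]`. -/
noncomputable def kpsi (ψ : G →* (ZMod p)ˣ) : G →* PowerSeries (ZMod p) :=
  ((PowerSeries.C (R := ZMod p) : ZMod p →+* PowerSeries (ZMod p)) :
    ZMod p →* PowerSeries (ZMod p)).comp ((Units.coeHom (ZMod p)).comp ψ)

/-- The character `ψ (1 + T) ^ a`. -/
noncomputable def kap2 (a : G →* Multiplicative ℤ_[p]) (ψ : G →* (ZMod p)ˣ) :
    G →* PowerSeries (ZMod p) := kap p a * kpsi p ψ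

theorem kap2_apply (a : G →* Multiplicative ℤ_[p]) (ψ : G →* (ZMod p)ˣ) (σ : G) :
    kap2 p a ψ σ = opw p (a σ).toAdd * PowerSeries.C (ψ σ : ZMod p) := rfl

theorem constantCoeff_opw (x : ℤ_[p]) : PowerSeries.constantCoeff (opw p x) = 1 := by
  have h1 : PowerSeries.coeff 0 (opw p x) = PadicInt.toZMod (Ring.choose x 0) := by
    simp only [opw, PowerSeries.coeff_mk]
  rw [← PowerSeries.coeff_zero_eq_constantCoeff_apply, h1, Ring.choose_zero_right, map_one]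

theorem kap2_ker (a : G →* Multiplicative ℤ_[p]) (ψ : G →* (ZMod p)ˣ) :
    (kap2 p a ψ).ker = a.ker ⊓ ψ.ker := by
  ext σ
  rw [Subgroup.mem_inf, MonoidHom.mem_ker, MonoidHom.mem_ker, MonoidHom.mem_ker, kap2_apply]
  constructor
  · intro h
    have h1 := congrArg (PowerSeries.constantCoeff (R := ZMod p)) h
    rw [map_mul, constantCoeff_opw, PowerSeries.constantCoeff_C, one_mul, map_one] at h1
    rw [h1, map_one, mul_one] at h
    refine ⟨Multiplicative.toAdd.injective ((opw_eq_one h).trans toAdd_one.symm), ?_⟩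
    exact Units.ext h1
  · rintro ⟨h1, h2⟩
    rw [h1, h2, toAdd_one, opw_zero, Units.val_one, map_one, mul_one]

/-- The continuous homomorphisms from `H ∩ ker a ∩ ker ψ` to `F_p[[T]]` which vanish on the groups of the
family `F` and satisfy `f(σ x σ⁻¹) = ψ(σ) (1 + T) ^ a(σ) f(x)`. -/
def IsE2 (a : G →* Multiplicative ℤ_[p]) (ψ : G →* (ZMod p)ˣ) (F : Set (Subgroup G))
    (H : Subgroup G) (f : ↥(H ⊓ (a.ker ⊓ ψ.ker)) → PowerSeries (ZMod p)) : Prop :=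
  (∀ x y, f (x * y) = f x + f y) ∧
  (∀ n, IsLocallyConstant fun x => PowerSeries.coeff n (f x)) ∧
  (∀ D ∈ F, ∀ x : ↥(H ⊓ (a.ker ⊓ ψ.ker)), (x : G) ∈ D → f x = 0) ∧
  ∀ σ ∈ H, ∀ x y : ↥(H ⊓ (a.ker ⊓ ψ.ker)), (y : G) = σ * x * σ⁻¹ →
    f y = opw p (a σ).toAdd * PowerSeries.C (ψ σ : ZMod p) * f x

theorem rank_EC2 (a : G →* Multiplicative ℤ_[p]) (ψ : G →* (ZMod p)ˣ) (F : Set (Subgroup G))
    (H : Subgroup G) :
    Module.rank (PowerSeries (ZMod p)) (EC (kap2 p a ψ) F H (a.ker ⊓ ψ.ker)) =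
      Module.rank (PowerSeries (ZMod p)) (E (kap2 p a ψ) F H) := by
  rw [← kap2_ker p a ψ]
  rfl

theorem mem_EC2 (a : G →* Multiplicative ℤ_[p]) (ψ : G →* (ZMod p)ˣ) (F : Set (Subgroup G))
    (H : Subgroup G) (f : ↥(H ⊓ (a.ker ⊓ ψ.ker)) → PowerSeries (ZMod p)) :
    f ∈ EC (kap2 p a ψ) F H (a.ker ⊓ ψ.ker) ↔ IsE2 p a ψ F H f := by
  constructor
  · rintro ⟨h1, h2, h3, h4⟩
    exact ⟨h1, (continuous_ps p f).1 h2, h3, h4⟩
  · rintro ⟨h1, h2, h3, h4⟩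
    exact ⟨h1, (continuous_ps p f).2 h2, h3, h4⟩

/-- The module of these homomorphisms. -/
def EE2 (a : G →* Multiplicative ℤ_[p]) (ψ : G →* (ZMod p)ˣ) (F : Set (Subgroup G))
    (H : Subgroup G) :
    Submodule (PowerSeries (ZMod p)) (↥(H ⊓ (a.ker ⊓ ψ.ker)) → PowerSeries (ZMod p)) where
  carrier := {f | IsE2 p a ψ F H f}
  add_mem' := fun {f g} hf hg => (mem_EC2 p a ψ F H _).1
    (add_mem ((mem_EC2 p a ψ F H f).2 hf) ((mem_EC2 p a ψ F H g).2 hg))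
  zero_mem' := (mem_EC2 p a ψ F H _).1 (zero_mem _)
  smul_mem' := fun c {f} hf => (mem_EC2 p a ψ F H _).1
    (Submodule.smul_mem _ c ((mem_EC2 p a ψ F H f).2 hf))

theorem rank_EE2 (a : G →* Multiplicative ℤ_[p]) (ψ : G →* (ZMod p)ˣ) (F : Set (Subgroup G))
    (H : Subgroup G) :
    Module.rank (PowerSeries (ZMod p)) (EE2 p a ψ F H) =
      Module.rank (PowerSeries (ZMod p)) (E (kap2 p a ψ) F H) := by
  rw [← rank_EC2]
  have h1 : EE2 p a ψ F H = EC (kap2 p a ψ) F H (a.ker ⊓ ψ.ker) :=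
    Submodule.ext fun f => (mem_EC2 p a ψ F H f).symm
  rw [h1]

section field

variable {k : Type} [Field k]

/-- The rank over the field `K`. -/
noncomputable def rkT (a : (AlgebraicClosure k ≃ₐ[k] AlgebraicClosure k) →* Multiplicative ℤ_[p])
    (ψ : (AlgebraicClosure k ≃ₐ[k] AlgebraicClosure k) →* (ZMod p)ˣ)
    (F : Set (Subgroup (AlgebraicClosure k ≃ₐ[k] AlgebraicClosure k)))
    (K : IntermediateField k (AlgebraicClosure k)) : Cardinal.{0} :=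
  Module.rank (PowerSeries (ZMod p)) (EE2 p a ψ F K.fixingSubgroup)

theorem rkT_eq (a : (AlgebraicClosure k ≃ₐ[k] AlgebraicClosure k) →* Multiplicative ℤ_[p])
    (ψ : (AlgebraicClosure k ≃ₐ[k] AlgebraicClosure k) →* (ZMod p)ˣ)
    (F : Set (Subgroup (AlgebraicClosure k ≃ₐ[k] AlgebraicClosure k)))
    (K : IntermediateField k (AlgebraicClosure k)) : rkT p a ψ F K = rkF (kap2 p a ψ) F K :=
  rank_EE2 p a ψ F K.fixingSubgroup

theorem mainT [CharZero k] (hA : S_A) (hC : S_C)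
    (a : (AlgebraicClosure k ≃ₐ[k] AlgebraicClosure k) →* Multiplicative ℤ_[p])
    (ψ : (AlgebraicClosure k ≃ₐ[k] AlgebraicClosure k) →* (ZMod p)ˣ)
    {F : Set (Subgroup (AlgebraicClosure k ≃ₐ[k] AlgebraicClosure k))} (hF : Stab F)
    (ℓ : ℕ) (hℓ : ℓ.Prime) (hne : ℓ ≠ p) :
    (∀ K' K : IntermediateField k (AlgebraicClosure k), K' ≤ K →
      FiniteDimensional k K → IsGalois k K → IsGalois k K' → ¬ p ∣ finrank k K →
      (rkT p a ψ F K < Cardinal.aleph0 →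
        ∃ (d : ℕ) (φ : (K ≃ₐ[k] K) →* GL (Fin d) (ZMod p)),
          rkT p a ψ F K = rkT p a ψ F K' + (d : Cardinal) ∧
          (d ≠ 0 → ∃ σ : K ≃ₐ[k] K,
            (∀ x : K, (x : AlgebraicClosure k) ∈ K' → σ x = x) ∧ φ σ ≠ 1)) ∧
      ∀ m : ℕ, PowF ℓ m K' K → rkT p a ψ F K = rkT p a ψ F K' ∨
        rkT p a ψ F K' + (orderOf (p : ZMod (ℓ ^ (m + 1))) : ℕ) ≤ rkT p a ψ F K) ∧
    (∀ L : ℕ → IntermediateField k (AlgebraicClosure k), Monotone L →
      (∀ m, FiniteDimensional k (L m) ∧ IsGalois k (L m) ∧ ¬ p ∣ finrank k (L m) ∧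
        PowF ℓ m (L m) (L (m + 1))) →
      (∃ m₀, rkT p a ψ F (L m₀) < Cardinal.aleph0 ∧ ∀ K ≤ ⨆ m, L m, FiniteDimensional k K →
        rkT p a ψ F K = rkT p a ψ F (K ⊓ L m₀)) ∨
      ∀ M, ∃ m ≥ M, rkT p a ψ F (L m) + (orderOf (p : ZMod (ℓ ^ (m + 1))) : ℕ) ≤
        rkT p a ψ F (L (m + 1))) ∧
    (∀ (s : ℕ) (L : ℕ → IntermediateField k (AlgebraicClosure k)), Monotone L →
      (∀ m, FiniteDimensional k (L m) ∧ IsGalois k (L m) ∧
        Nonempty ((L m ≃ₐ[k] L m) ≃* Multiplicative (Fin s → ZMod (ℓ ^ m)))) →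
      (∀ m, rkT p a ψ F (L (m + 1)) = rkT p a ψ F (L m) ∨
        rkT p a ψ F (L m) + (orderOf (p : ZMod (ℓ ^ (m + 1))) : ℕ) ≤ rkT p a ψ F (L (m + 1))) ∧
      ((∃ m₀, rkT p a ψ F (L m₀) < Cardinal.aleph0 ∧ ∀ K ≤ ⨆ m, L m, FiniteDimensional k K →
        rkT p a ψ F K = rkT p a ψ F (K ⊓ L m₀)) ∨
      ∃ D : ℕ, ∀ M, ∃ m ≥ M, ((ℓ ^ m : ℕ) : Cardinal) ≤ D * rkT p a ψ F (L m))) := by
  have he : rkT p a ψ F = rkF (kap2 p a ψ) F := funext (rkT_eq p a ψ F)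
  rw [he]
  refine ⟨fun K' K hle hf hg hg' hd => ⟨fun hfin => ?_, fun m hP => ?_⟩, fun L hmono h => ?_,
    fun s L hmono h => ?_⟩
  · exact gapRep hA hC (κ := kap2 p a ψ) hF K' K hle hf hg hg' hd hfin
  · exact gap hA hC (κ := kap2 p a ψ) hF hℓ hne m K' K hle hf hg hg' hd hP
  · exact tower hA hC (κ := kap2 p a ψ) hF hℓ hne L hmono h
  · exact zls hA hC (κ := kap2 p a ψ) hF hℓ hne s L hmono h

end field

end Pool.Agent.U120.GapG
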